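import Pool.Agent.helper62.MS.SpecD

/-!
# Project MS, row BXM: unions of boxes with bounded derivatives
-/

set_option autoImplicit false

open scoped MatrixGroups ContDiff Topology UpperHalfPlane ComplexConjugate
open UpperHalfPlane MeasureTheory Filter Set

namespace Pool.Agent.MS

open Pool.Agent.RS

lemma BXM_aM : aM 0 = 1 := by
  ext i j
  fin_cases i <;> fin_cases j <;> simp [aM]

lemma BXM_nM : nM 0 = 1 := by
  ext i j
  fin_cases i <;> fin_cases j <;> simp [nM]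

lemma BXM_lM : lM 0 = 1 := by
  ext i j
  fin_cases i <;> fin_cases j <;> simp [lM]

lemma BXM_der {f h : ℝ → ℝ} {f' h' : ℝ} (hf : HasDerivAt f f' 0) (hh : HasDerivAt h h' 0) :
    HasDerivAt (fun t => 1 - (1 - f t) * (1 - h t)) (f' * (1 - h 0) + (1 - f 0) * h') 0 := by
  have h1 : HasDerivAt (fun t => 1 - f t) (-f') 0 := by
    have := (hasDerivAt_const (0 : ℝ) (1 : ℝ)).sub hf
    rwa [zero_sub] at this
  have h2 : HasDerivAt (fun t => 1 - h t) (-h') 0 := by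
    have := (hasDerivAt_const (0 : ℝ) (1 : ℝ)).sub hh
    rwa [zero_sub] at this
  have h3 := (hasDerivAt_const (0 : ℝ) (1 : ℝ)).sub (h1.mul h2)
  have h4 : (0 : ℝ) - (-f' * (1 - h 0) + (1 - f 0) * -h') = f' * (1 - h 0) + (1 - f 0) * h' := by ring
  rw [h4] at h3
  exact h3

lemma BXM_bd {s t u v B1 B2 : ℝ} (hs : 0 ≤ s ∧ s ≤ 1) (ht : 0 ≤ t ∧ t ≤ 1) (hu : |u| ≤ B1) (hv : |v| ≤ B2) :
    |u * (1 - t) + (1 - s) * v| ≤ B1 + B2 := by
  have h1 : |u * (1 - t)| ≤ |u| := by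
    rw [abs_mul]
    have : |1 - t| ≤ 1 := abs_le.2 ⟨by linarith [ht.2], by linarith [ht.1]⟩
    nlinarith [abs_nonneg u]
  have h2 : |(1 - s) * v| ≤ |v| := by
    rw [abs_mul]
    have : |1 - s| ≤ 1 := abs_le.2 ⟨by linarith [hs.2], by linarith [hs.1]⟩
    nlinarith [abs_nonneg v]
  calc |u * (1 - t) + (1 - s) * v| ≤ |u * (1 - t)| + |(1 - s) * v| := abs_add_le _ _
    _ ≤ B1 + B2 := by linarith

open Classical in
/-- the induction, with the number of the boxes which contain the point -/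
theorem BXM_ind (Γ : Subgroup SL(2, ℝ)) (R : SL(2, ℝ) → SL(2, ℝ) → Prop) (R' : SL(2, ℝ) → SL(2, ℝ) → Prop) (C1 C2 : ℝ)
    (hC1 : 0 ≤ C1) (hC2 : 0 ≤ C2)
    (h3 : ∀ y : SL(2, ℝ), ∃ Ψ Ψa Ψn Ψl : SL(2, ℝ) → ℝ, SF Γ Ψ Ψa Ψn Ψl ∧ (∀ g, 0 ≤ Ψ g ∧ Ψ g ≤ 1) ∧ (∀ g, |Ψn g| ≤ C1) ∧
      (∀ g, |Ψl g| ≤ C2) ∧ (∀ g, R y g → Ψ g = 1) ∧ ∀ g, (Ψ g ≠ 0 ∨ Ψn g ≠ 0 ∨ Ψl g ≠ 0) → R' y g) (A : Finset SL(2, ℝ)) :
    ∃ Ψ Ψa Ψn Ψl : SL(2, ℝ) → ℝ, SF Γ Ψ Ψa Ψn Ψl ∧ (∀ g, 0 ≤ Ψ g ∧ Ψ g ≤ 1) ∧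
      (∀ g, |Ψn g| ≤ C1 * (A.filter fun y => R' y g).card) ∧ (∀ g, |Ψl g| ≤ C2 * (A.filter fun y => R' y g).card) ∧
      (∀ g, (∃ y ∈ A, R y g) → Ψ g = 1) ∧ ∀ g, Ψ g ≠ 0 → ∃ y ∈ A, R' y g := by
  induction A using Finset.induction_on with
  | empty =>
    have hinv : InvG Γ (fun _ : SL(2, ℝ) => (0 : ℝ)) := ⟨continuous_const, fun _ _ => rfl⟩
    refine ⟨fun _ => 0, fun _ => 0, fun _ => 0, fun _ => 0, ⟨hinv, hinv, hinv, hinv, fun g => hasDerivAt_const _ _,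
      fun g => hasDerivAt_const _ _, fun g => hasDerivAt_const _ _⟩, fun g => ⟨le_rfl, zero_le_one⟩, fun g => ?_, fun g => ?_,
      fun g hg => ?_, fun g hg => absurd rfl hg⟩
    · simp
    · simp
    · obtain ⟨y, hy, -⟩ := hg
      exact absurd hy (Finset.notMem_empty y)
  | insert y A hyA ih =>
    obtain ⟨Ψ, Ψa, Ψn, Ψl, hS, h01, hBn, hBl, hcov, hsup⟩ := ih
    obtain ⟨Φ, Φa, Φn, Φl, kS, k01, kBn, kBl, kcov, ksup⟩ := h3 y
    have hinv : ∀ {u v : SL(2, ℝ) → ℝ}, InvG Γ u → InvG Γ v →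
        InvG Γ (fun g => u g * (1 - Φ g) + (1 - Ψ g) * v g) := by
      intro u v hu hv
      refine ⟨(hu.1.mul (continuous_const.sub kS.i0.1)).add ((continuous_const.sub hS.i0.1).mul hv.1), fun γ g => ?_⟩
      simp only [hu.2 γ g, hv.2 γ g, kS.i0.2 γ g, hS.i0.2 γ g]
    have hcard : ∀ g, (((insert y A).filter fun y => R' y g).card : ℝ) =
        (A.filter fun y => R' y g).card + if R' y g then 1 else 0 := by
      intro g
      rw [Finset.filter_insert]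
      split_ifs with h
      · rw [Finset.card_insert_of_notMem (fun h' => hyA (Finset.mem_filter.1 h').1)]
        push_cast
        ring
      · rw [add_zero]
    have kBn' : ∀ g, |Φn g| ≤ C1 * if R' y g then 1 else 0 := by
      intro g
      by_cases h : R' y g
      · rw [if_pos h, mul_one]
        exact kBn g
      · have : Φn g = 0 := by
          by_contra h'
          exact h (ksup g (Or.inr (Or.inl h')))
        rw [if_neg h, this]
        simp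
    have kBl' : ∀ g, |Φl g| ≤ C2 * if R' y g then 1 else 0 := by
      intro g
      by_cases h : R' y g
      · rw [if_pos h, mul_one]
        exact kBl g
      · have : Φl g = 0 := by
          by_contra h'
          exact h (ksup g (Or.inr (Or.inr h')))
        rw [if_neg h, this]
        simp
    refine ⟨fun g => 1 - (1 - Ψ g) * (1 - Φ g), fun g => Ψa g * (1 - Φ g) + (1 - Ψ g) * Φa g,
      fun g => Ψn g * (1 - Φ g) + (1 - Ψ g) * Φn g, fun g => Ψl g * (1 - Φ g) + (1 - Ψ g) * Φl g,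
      ⟨?_, hinv hS.ia kS.ia, hinv hS.i1 kS.i1, hinv hS.il kS.il, fun g => ?_, fun g => ?_, fun g => ?_⟩,
      fun g => ?_, fun g => ?_, fun g => ?_, fun g hg => ?_, fun g hg => ?_⟩
    · refine ⟨continuous_const.sub ((continuous_const.sub hS.i0.1).mul (continuous_const.sub kS.i0.1)), fun γ g => ?_⟩
      simp only [kS.i0.2 γ g, hS.i0.2 γ g]
    · have h4 := BXM_der (hS.da g) (kS.da g)
      rw [BXM_aM, mul_one] at h4
      exact h4
    · have h4 := BXM_der (hS.dn g) (kS.dn g)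
      rw [BXM_nM, mul_one] at h4
      exact h4
    · have h4 := BXM_der (hS.dl g) (kS.dl g)
      rw [BXM_lM, mul_one] at h4
      exact h4
    · have a1 := h01 g
      have a2 := k01 g
      constructor
      · nlinarith [a1.1, a1.2, a2.1, a2.2, mul_nonneg a1.1 (sub_nonneg.2 a2.2)]
      · nlinarith [mul_nonneg (sub_nonneg.2 a1.2) (sub_nonneg.2 a2.2)]
    · refine (BXM_bd (h01 g) (k01 g) (hBn g) (kBn' g)).trans (le_of_eq ?_)
      rw [hcard g]; ring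
    · refine (BXM_bd (h01 g) (k01 g) (hBl g) (kBl' g)).trans (le_of_eq ?_)
      rw [hcard g]; ring
    · obtain ⟨y', hy', hγ⟩ := hg
      rcases Finset.mem_insert.1 hy' with rfl | hA
      · show 1 - (1 - Ψ g) * (1 - Φ g) = 1
        rw [kcov g hγ]; ring
      · show 1 - (1 - Ψ g) * (1 - Φ g) = 1
        rw [hcov g ⟨y', hA, hγ⟩]; ring
    · by_cases hΨ : Ψ g = 0
      · by_cases hΦ : Φ g = 0
        · have h5 : 1 - (1 - Ψ g) * (1 - Φ g) = 0 := by rw [hΨ, hΦ]; ring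
          exact absurd h5 hg
        · exact ⟨y, Finset.mem_insert_self _ _, ksup g (Or.inl hΦ)⟩
      · obtain ⟨y', hA, hγ⟩ := hsup g hΨ
        exact ⟨y', Finset.mem_insert_of_mem hA, hγ⟩

theorem BXM_proof (hBXG : BXG_stmt) (hPCK : PCK_stmt) : BXM_stmt := by
  classical
  intro Γ hΓ
  obtain ⟨aG, haG, -, hG⟩ := hBXG Γ hΓ
  obtain ⟨aP, M, haP, haP1, hP⟩ := hPCK Γ hΓ
  refine ⟨min (aG / 8) aP, lt_min (by linarith) haP, (min_le_right _ _).trans haP1, fun a ha haa => ?_⟩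
  obtain ⟨C, hC, h3⟩ := hG (8 * a) (by linarith) (by linarith [haa.trans (min_le_left _ _)])
  refine ⟨C * (M + 1), by positivity, fun n A hn => ?_⟩
  obtain ⟨A', hA', hcov, hmul⟩ := hP a n A ha (haa.trans (min_le_right _ _)) hn
  have he : 0 ≤ C * Real.exp n := by positivity
  have e2 : 2 * (8 * a) = 16 * a := by ring
  obtain ⟨Ψ, Ψa, Ψn, Ψl, hS, h01, hBn, hBl, hc, hsup⟩ := BXM_ind Γ
    (fun y g => ∃ γ : Γ, bq (8 * a) (8 * a) (8 * a * Real.exp (-n)) (y⁻¹ * (γ : SL(2, ℝ)) * g))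
    (fun y g => ∃ γ : Γ, bq (16 * a) (16 * a) (16 * a * Real.exp (-n)) (y⁻¹ * (γ : SL(2, ℝ)) * g))
    C (C * Real.exp n) hC.le he (fun y => by
      have h4 := h3 n y hn
      rw [e2] at h4
      exact h4) A'
  have hle : ∀ g, ((A'.filter fun y => ∃ γ : Γ, bq (16 * a) (16 * a) (16 * a * Real.exp (-n))
      (y⁻¹ * (γ : SL(2, ℝ)) * g)).card : ℝ) ≤ M + 1 := by
    intro g
    have h4 := hmul g
    have h5 : {y | y ∈ A' ∧ ∃ γ : Γ, bq (16 * a) (16 * a) (16 * a * Real.exp (-n)) (y⁻¹ * (γ : SL(2, ℝ)) * g)} =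
        ((A'.filter fun y => ∃ γ : Γ, bq (16 * a) (16 * a) (16 * a * Real.exp (-n))
          (y⁻¹ * (γ : SL(2, ℝ)) * g) : Finset SL(2, ℝ)) : Set SL(2, ℝ)) := by
      ext y
      simp only [Set.mem_ofPred_eq, Finset.coe_filter]
    rw [h5, Set.ncard_coe_finset] at h4
    have h6 : ((A'.filter fun y => ∃ γ : Γ, bq (16 * a) (16 * a) (16 * a * Real.exp (-n))
      (y⁻¹ * (γ : SL(2, ℝ)) * g)).card : ℝ) ≤ M := by exact_mod_cast h4
    linarith
  refine ⟨Ψ, Ψa, Ψn, Ψl, hS, h01, fun g => (hBn g).trans ?_, fun g => (hBl g).trans ?_, fun g hg => ?_, fun g hg => ?_⟩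
  · exact mul_le_mul_of_nonneg_left (hle g) hC.le
  · refine (mul_le_mul_of_nonneg_left (hle g) he).trans (le_of_eq ?_)
    ring
  · obtain ⟨y, hy, γ, h⟩ := hcov g hg
    exact hc g ⟨y, hy, γ, h⟩
  · obtain ⟨y, hy, γ, h⟩ := hsup g hg
    exact ⟨y, hA' hy, γ, h⟩

end Pool.Agent.MS
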